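import Mathlib

/-!
A triangle-free graph on the flags of the affine plane over `ZMod q` times a chain of length `q`:
`q ^ 4` vertices and `rank (A + I) ≤ 5 q ^ 3`.
-/

namespace Pool.Agent.Y780.RR

open Finset

variable {q : ℕ}

/-- the points (and the lines) of the affine plane -/
abbrev Pt (q : ℕ) : Type := ZMod q × ZMod q

/-- flags: a point `(a, b)` and a slope `m` -/
abbrev Fl (q : ℕ) : Type := Pt q × ZMod q

/-- the line of a flag, as slope and intercept -/
def ln (x : Fl q) : Pt q := (x.2, x.1.2 - x.2 * x.1.1)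

/-- incidence -/
def Inc (p l : Pt q) : Prop := p.2 = l.1 * p.1 + l.2

lemma inc_self (x : Fl q) : Inc x.1 (ln x) := by
  unfold Inc ln; ring

lemma flag_ext {x y : Fl q} (h1 : x.1 = y.1) (h2 : ln x = ln y) : x = y := by
  have : x.2 = y.2 := congrArg Prod.fst h2
  exact Prod.ext h1 this

lemma inc_unique [Fact q.Prime] {p p' l l' : Pt q} (h1 : Inc p l) (h2 : Inc p l') (h3 : Inc p' l)
    (h4 : Inc p' l') (hp : p ≠ p') : l = l' := by
  unfold Inc at *
  have hp1 : p.1 ≠ p'.1 := by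
    intro h
    apply hp
    refine Prod.ext h ?_
    rw [h1, h3, h]
  have e : (l.1 - l'.1) * (p.1 - p'.1) = 0 := by
    linear_combination h2 - h1 + h3 - h4
  have hl : l.1 = l'.1 := by
    rcases mul_eq_zero.1 e with h | h
    · exact sub_eq_zero.1 h
    · exact absurd (sub_eq_zero.1 h) hp1
  refine Prod.ext hl ?_
  rw [hl] at h1
  linear_combination h2 - h1

/-- the arcs -/
def Arc (x y : Fl q) : Prop := Inc x.1 (ln y) ∧ x.1 ≠ y.1 ∧ ln x ≠ ln y

/-- the graph -/
def gr (q : ℕ) : SimpleGraph (Fl q × Fin q) where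
  Adj u v := (u.2 < v.2 ∧ Arc u.1 v.1) ∨ (v.2 < u.2 ∧ Arc v.1 u.1)
  symm := ⟨fun _ _ h => h.symm⟩
  loopless := ⟨fun u h => by rcases h with h | h <;> exact lt_irrefl _ h.1⟩

lemma gr_arc {u v : Fl q × Fin q} (h : (gr q).Adj u v) (huv : u.2 < v.2) : Arc u.1 v.1 := by
  rcases h with h | h
  · exact h.2
  · exact absurd h.1 (not_lt.2 huv.le)

lemma no_sorted_triangle [Fact q.Prime] {u v w : Fl q × Fin q} (h1 : (gr q).Adj u v)
    (h2 : (gr q).Adj u w) (h3 : (gr q).Adj v w) (huv : u.2 < v.2) (hvw : v.2 < w.2) : False := by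
  have a1 := gr_arc h1 huv
  have a2 := gr_arc h2 (huv.trans hvw)
  have a3 := gr_arc h3 hvw
  exact a3.2.2 (inc_unique a1.1 a2.1 (inc_self v.1) a3.1 a1.2.1)

lemma adj_ne {u v : Fl q × Fin q} (h : (gr q).Adj u v) : u.2 ≠ v.2 := by
  rcases h with h | h
  · exact ne_of_lt h.1
  · exact (ne_of_lt h.1).symm

lemma gr_cliqueFree [Fact q.Prime] : (gr q).CliqueFree 3 := by
  classical
  intro s hs
  rw [SimpleGraph.is3Clique_iff] at hs
  obtain ⟨a, b, c, hab, hac, hbc, -⟩ := hs
  rcases lt_or_gt_of_ne (adj_ne hab) with h1 | h1 <;>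
    rcases lt_or_gt_of_ne (adj_ne hac) with h2 | h2 <;>
    rcases lt_or_gt_of_ne (adj_ne hbc) with h3 | h3
  · exact no_sorted_triangle hab hac hbc h1 h3
  · exact no_sorted_triangle hac hab hbc.symm h2 h3
  · exact absurd (h1.trans h3) (not_lt.2 h2.le)
  · exact no_sorted_triangle hac.symm hbc.symm hab h2 h1
  · exact no_sorted_triangle hab.symm hbc hac h1 h2
  · exact absurd (h3.trans h1) (not_lt.2 h2.le)
  · exact no_sorted_triangle hbc hab.symm hac.symm h3 h2
  · exact no_sorted_triangle hbc.symm hac.symm hab.symm h3 h1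

lemma rank_factor {V W S : Type} [Fintype V] [Fintype W] [Fintype S] [DecidableEq S]
    (φ : V → S) (g : S → W → ℝ) :
    (Matrix.of fun v w => g (φ v) w).rank ≤ Fintype.card S := by
  have e : (Matrix.of fun v w => g (φ v) w)
      = (Matrix.of fun (v : V) (s : S) => if φ v = s then (1 : ℝ) else 0) * Matrix.of g := by
    ext v w
    simp [Matrix.mul_apply]
  rw [e]
  exact (Matrix.rank_mul_le_right _ _).trans (Matrix.rank_le_card_height _)

lemma rank_factor' {V W S : Type} [Fintype V] [Fintype W] [Fintype S] [DecidableEq S]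
    (φ : W → S) (g : V → S → ℝ) :
    (Matrix.of fun v w => g v (φ w)).rank ≤ Fintype.card S := by
  have h := rank_factor φ (fun s v => g v s)
  rw [← Matrix.rank_transpose] at h
  exact h

lemma rank_add_le' {V : Type} [Fintype V] (A B : Matrix V V ℝ) :
    (A + B).rank ≤ A.rank + B.rank := by
  rw [Matrix.rank, Matrix.rank, Matrix.rank, Matrix.mulVecLin_add]
  exact (Submodule.finrank_mono (LinearMap.range_add_le _ _)).trans
    (Submodule.finrank_add_le_finrank_add_finrank _ _)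

open Classical in
theorem rank_gr (q n : ℕ) [NeZero q] (f : Fin n ↪ Fl q × Fin q) :
    (((gr q).comap f).adjMatrix ℝ + 1).rank ≤ 5 * q ^ 3 := by
  have : Fintype (ZMod q) := ZMod.fintype q
  -- the five summands
  let g1 : (Pt q × Fin q) → Fin n → ℝ := fun s k =>
    (if s.2 < (f k).2 then 1 else 0) *
      ((if Inc s.1 (ln (f k).1) then 1 else 0) - (if s.1 = (f k).1.1 then 1 else 0))
  let g2 : (Pt q × Fin q) → Fin n → ℝ := fun s k =>
    -((if s.2 < (f k).2 then 1 else 0) * (if s.1 = ln (f k).1 then 1 else 0))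
  let g3 : Fl q → Fin n → ℝ := fun s k => if s = (f k).1 then 1 else 0
  let φ1 : Fin n → Pt q × Fin q := fun k => ((f k).1.1, (f k).2)
  let φ2 : Fin n → Pt q × Fin q := fun k => (ln (f k).1, (f k).2)
  let φ3 : Fin n → Fl q := fun k => (f k).1
  have key : (((gr q).comap f).adjMatrix ℝ + 1) =
      (Matrix.of fun k l => g1 (φ1 k) l) + (Matrix.of fun k l => g2 (φ2 k) l)
      + (Matrix.of fun k l => g1 (φ1 l) k) + (Matrix.of fun k l => g2 (φ2 l) k)
      + (Matrix.of fun k l => g3 (φ3 k) l) := by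
    ext k l
    rw [Matrix.add_apply, SimpleGraph.adjMatrix_apply]
    simp only [Matrix.add_apply, Matrix.of_apply, g1, g2, g3, φ1, φ2, φ3]
    -- values of the arcs
    have arc : ∀ x y : Fl q, (if Arc x y then (1 : ℝ) else 0)
        = ((if Inc x.1 (ln y) then 1 else 0) - (if x.1 = y.1 then 1 else 0))
          - (if ln x = ln y then 1 else 0) + (if x = y then 1 else 0) := by
      intro x y
      by_cases h1 : x.1 = y.1
      · by_cases h2 : ln x = ln y
        · have h3 : x = y := flag_ext h1 h2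
          subst h3
          simp [Arc, inc_self]
        · have h3 : x ≠ y := fun h => h2 (by rw [h])
          have h4 : Inc x.1 (ln y) := h1 ▸ inc_self y
          simp [Arc, h1, h2, h3, h1 ▸ h4]
      · have h3 : x ≠ y := fun h => h1 (by rw [h])
        by_cases h2 : ln x = ln y
        · have h4 : Inc x.1 (ln y) := h2 ▸ inc_self x
          simp [Arc, h1, h2, h3, h4]
        · simp [Arc, h1, h2, h3]
    rcases lt_trichotomy (f k).2 (f l).2 with h | h | h
    · have hkl : k ≠ l := fun e => by rw [e] at h; exact lt_irrefl _ h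
      have hn : ¬ (f l).2 < (f k).2 := not_lt.2 h.le
      have hadj : ((gr q).comap f).Adj k l ↔ Arc (f k).1 (f l).1 := by
        show (gr q).Adj (f k) (f l) ↔ _
        simp [gr, h, hn]
      rw [Matrix.one_apply_ne hkl]
      simp only [hadj, h, hn, if_true, if_false]
      rw [arc]
      ring
    · have hn : ¬ (f l).2 < (f k).2 := by rw [h]; exact lt_irrefl _
      have hn' : ¬ (f k).2 < (f l).2 := by rw [h]; exact lt_irrefl _
      have hadj : ¬ ((gr q).comap f).Adj k l := by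
        show ¬ (gr q).Adj (f k) (f l)
        simp [gr, hn, hn']
      simp only [hadj, hn, hn', if_false]
      by_cases e : k = l
      · subst e
        simp
      · have e2 : (f k).1 ≠ (f l).1 := fun e2 => e (f.injective (Prod.ext e2 h))
        rw [Matrix.one_apply_ne e]
        simp [e2]
    · have hkl : k ≠ l := fun e => by rw [e] at h; exact lt_irrefl _ h
      have hn : ¬ (f k).2 < (f l).2 := not_lt.2 h.le
      have hadj : ((gr q).comap f).Adj k l ↔ Arc (f l).1 (f k).1 := by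
        show (gr q).Adj (f k) (f l) ↔ _
        simp [gr, h, hn]
      rw [Matrix.one_apply_ne hkl]
      simp only [hadj, h, hn, if_true, if_false]
      rw [arc]
      have e3 : ((f k).1 = (f l).1) = ((f l).1 = (f k).1) := propext eq_comm
      simp only [e3]
      ring
  have hP : Fintype.card (Pt q × Fin q) = q ^ 3 := by
    simp only [Fintype.card_prod, Fintype.card_fin, ZMod.card]; ring
  have hF : Fintype.card (Fl q) = q ^ 3 := by
    simp only [Fintype.card_prod, ZMod.card]; ring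
  have r1 := rank_factor φ1 g1
  have r2 := rank_factor φ2 g2
  have r3 := rank_factor' φ1 (fun k s => g1 s k)
  have r4 := rank_factor' φ2 (fun k s => g2 s k)
  have r5 := rank_factor φ3 g3
  rw [hP] at r1 r2 r3 r4
  rw [hF] at r5
  rw [key]
  refine (rank_add_le' _ _).trans ?_
  refine (Nat.add_le_add ((rank_add_le' _ _).trans (Nat.add_le_add
    ((rank_add_le' _ _).trans (Nat.add_le_add
      ((rank_add_le' _ _).trans (Nat.add_le_add r1 r2)) r3)) r4)) r5).trans ?_
  omega

open Classical in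
/-- For every `n ≥ 1` there is a triangle-free graph on `n` vertices with
`rank (A + I) ≤ 320 n^(3/4)`. -/
theorem exists_graph (n : ℕ) (hn : 1 ≤ n) :
    ∃ G : SimpleGraph (Fin n), G.CliqueFree 3 ∧
      ((G.adjMatrix ℝ + 1).rank : ℝ) ≤ 320 * (n : ℝ) ^ (3 / 4 : ℝ) := by
  obtain ⟨t, ht⟩ : ∃ t, t = Nat.sqrt (Nat.sqrt n) := ⟨_, rfl⟩
  have ht1 : t ^ 4 ≤ n := by
    have h1 : t ^ 2 ≤ Nat.sqrt n := by rw [ht]; exact Nat.sqrt_le' _
    calc t ^ 4 = (t ^ 2) ^ 2 := by ring
      _ ≤ (Nat.sqrt n) ^ 2 := Nat.pow_le_pow_left h1 2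
      _ ≤ n := Nat.sqrt_le' _
  have ht2 : n < (t + 1) ^ 4 := by
    have h1 : Nat.sqrt n < (t + 1) ^ 2 := by rw [ht]; exact Nat.lt_succ_sqrt' _
    have h2 : n < (Nat.sqrt n + 1) ^ 2 := Nat.lt_succ_sqrt' _
    calc n < (Nat.sqrt n + 1) ^ 2 := h2
      _ ≤ ((t + 1) ^ 2) ^ 2 := Nat.pow_le_pow_left h1 2
      _ = (t + 1) ^ 4 := by ring
  obtain ⟨q, hq, hq1, hq2⟩ := Nat.exists_prime_lt_and_le_two_mul (t + 1) (by omega)
  have : Fact q.Prime := ⟨hq⟩
  have : NeZero q := ⟨hq.ne_zero⟩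
  have hcard : n ≤ Fintype.card (Fl q × Fin q) := by
    have h1 : Fintype.card (Fl q × Fin q) = q ^ 4 := by
      simp only [Fintype.card_prod, ZMod.card, Fintype.card_fin]; ring
    rw [h1]
    exact ht2.le.trans (Nat.pow_le_pow_left hq1.le 4)
  obtain ⟨f⟩ : Nonempty (Fin n ↪ Fl q × Fin q) := by
    rw [Function.Embedding.nonempty_iff_card_le, Fintype.card_fin]
    exact hcard
  refine ⟨(gr q).comap f, ?_, ?_⟩
  · exact SimpleGraph.CliqueFree.comap (SimpleGraph.Embedding.comap f _).isContained gr_cliqueFree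
  · have hr := rank_gr q n f
    have hnR : (1 : ℝ) ≤ n := by exact_mod_cast hn
    have hn0 : (0 : ℝ) ≤ n := by positivity
    have hx1 : (1 : ℝ) ≤ (n : ℝ) ^ (1 / 4 : ℝ) := Real.one_le_rpow hnR (by norm_num)
    have htx : (t : ℝ) ≤ (n : ℝ) ^ (1 / 4 : ℝ) := by
      have h1 : ((t : ℝ) ^ (4 : ℕ)) ≤ n := by exact_mod_cast ht1
      calc (t : ℝ) = ((t : ℝ) ^ (4 : ℕ)) ^ (1 / 4 : ℝ) := by
            rw [← Real.rpow_natCast, ← Real.rpow_mul (by positivity)]; norm_num
        _ ≤ _ := Real.rpow_le_rpow (by positivity) h1 (by norm_num)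
    have hqx : (q : ℝ) ≤ 4 * (n : ℝ) ^ (1 / 4 : ℝ) := by
      have h1 : (q : ℝ) ≤ 2 * (t + 1) := by exact_mod_cast hq2
      linarith
    have h3 : ((n : ℝ) ^ (1 / 4 : ℝ)) ^ (3 : ℕ) = (n : ℝ) ^ (3 / 4 : ℝ) := by
      rw [← Real.rpow_natCast, ← Real.rpow_mul hn0]; norm_num
    calc ((((gr q).comap f).adjMatrix ℝ + 1).rank : ℝ) ≤ 5 * (q : ℝ) ^ 3 := by exact_mod_cast hr
      _ ≤ 5 * (4 * (n : ℝ) ^ (1 / 4 : ℝ)) ^ 3 := by gcongr
      _ = 320 * ((n : ℝ) ^ (1 / 4 : ℝ)) ^ (3 : ℕ) := by ring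
      _ = 320 * (n : ℝ) ^ (3 / 4 : ℝ) := by rw [h3]

end Pool.Agent.Y780.RR
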